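import Pool.Agent.Lib.H13F2.FC

/-!
# H13F2, F1: the fundamental group of the complement of a finite set embeds into a free group
-/

set_option autoImplicit false

open scoped unitInterval

namespace H13F2

open H13K

/-- There is a faithful functional on the complement of a finite set of the plane with values in a
free group. -/
theorem free_embed (S : Finset ℂ) :
    ∃ (Y : Type) (Ψ : PF {z : ℂ // z ∉ S} (FreeGroup Y)),
      ∀ (x : {z : ℂ // z ∉ S}) (p : Path x x), Ψ.val p = 1 → p.Homotopic (Path.refl x) := by
  obtain ⟨δ, ε, h⟩ := exists_good S
  exact free_embed_of h

end H13F2
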