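import Pool.Agent.Lib.H13K.T1b

/-!
# H13F2, F1c: two functionals that agree on small paths agree
-/

set_option autoImplicit false

open scoped unitInterval

namespace H13F2

open H13K

theorem locI : LocallyPathConnectedSpace I := by
  refine LocallyPathConnectedSpace.of_bases (fun x => Metric.nhds_basis_ball) ?_
  intro x r hr
  rw [Topology.IsInducing.subtypeVal.isPathConnected_iff]
  have h : (Subtype.val '' Metric.ball x r : Set ℝ) = Metric.ball (x : ℝ) r ∩ Set.Icc 0 1 := by
    ext y
    constructor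
    · rintro ⟨z, hz, rfl⟩
      exact ⟨by simpa [Metric.mem_ball, Subtype.dist_eq] using hz, z.2⟩
    · rintro ⟨hy, hy2⟩
      exact ⟨⟨y, hy2⟩, by simpa [Metric.mem_ball, Subtype.dist_eq] using hy, rfl⟩
  rw [h]
  exact ((convex_ball _ _).inter (convex_Icc _ _)).isPathConnected
    ⟨x, Metric.mem_ball_self hr, x.2⟩

theorem contI : ContractibleSpace I := (convex_Icc (0 : ℝ) 1).contractibleSpace ⟨0, by simp⟩

/-- Two functionals that agree on all paths inside the members of an open cover agree. -/
theorem agree {X : Type} [TopologicalSpace X] {H : Type} [Group H] (Φ Ψ : PF X H)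
    (U : Set (Set X)) (hopen : ∀ u ∈ U, IsOpen u) (hcover : ∀ x : X, ∃ u ∈ U, x ∈ u)
    (h : ∀ u ∈ U, ∀ (x y : X) (p : Path x y), (∀ t, p t ∈ u) → Φ.val p = Ψ.val p)
    {x y : X} (p : Path x y) : Φ.val p = Ψ.val p := by
  have hI1 : LocallyPathConnectedSpace I := locI
  have hI2 : ContractibleSpace I := contI
  let A : PF I H := Φ.comap (p : C(I, X))
  let B : PF I H := Ψ.comap (p : C(I, X))
  let π : ∀ t : I, Path (0 : I) t := fun t => (PathConnectedSpace.joined 0 t).somePath
  have hloc : IsLocallyConstant (fun t : I => (B.val (π t))⁻¹ * A.val (π t)) := by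
    rw [IsLocallyConstant.iff_eventually_eq]
    intro t₀
    obtain ⟨u, hu, hxu⟩ := hcover (p t₀)
    have hev : ∀ᶠ t in nhds t₀, p t ∈ u :=
      p.continuous.continuousAt.eventually_mem ((hopen u hu).mem_nhds hxu)
    obtain ⟨V, ⟨hV, hVpc⟩, hVsub⟩ := (path_connected_basis t₀).mem_iff.1 hev
    filter_upwards [hV] with t ht
    obtain ⟨τ, hτ⟩ := hVpc.joinedIn t₀ (mem_of_mem_nhds hV) t ht
    have hA : A.val (π t) = A.val τ * A.val (π t₀) := by
      rw [← A.trans]
      exact A.val_eq_of_simplyConnected _ _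
    have hB : B.val (π t) = B.val τ * B.val (π t₀) := by
      rw [← B.trans]
      exact B.val_eq_of_simplyConnected _ _
    have hAB : A.val τ = B.val τ := h u hu _ _ (τ.map p.continuous) (fun s => hVsub (hτ s))
    rw [hA, hB, hAB]
    group
  have h1 := hloc.apply_eq_of_isPreconnected isPreconnected_univ
    (Set.mem_univ (0 : I)) (Set.mem_univ (1 : I))
  have hA0 : A.val (π 0) = 1 := by
    rw [A.val_eq_of_simplyConnected (π 0) (Path.refl 0), A.val_refl]
  have hB0 : B.val (π 0) = 1 := by
    rw [B.val_eq_of_simplyConnected (π 0) (Path.refl 0), B.val_refl]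
  let id' : Path (0 : I) 1 := ⟨ContinuousMap.id I, rfl, rfl⟩
  have e : (id'.map (p : C(I, X)).continuous) = p.cast (by simp) (by simp) := by
    ext t; rfl
  have hA1 : A.val (π 1) = Φ.val p := by
    rw [A.val_eq_of_simplyConnected (π 1) id']
    show Φ.val _ = _
    rw [e, PF.val_cast]
  have hB1 : B.val (π 1) = Ψ.val p := by
    rw [B.val_eq_of_simplyConnected (π 1) id']
    show Ψ.val _ = _
    rw [e, PF.val_cast]
  simp only [hA0, hB0, hA1, hB1, inv_one, one_mul] at h1
  rw [eq_comm, inv_mul_eq_one] at h1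
  exact h1.symm

/-- A functional that is trivial on all paths inside the members of an open cover is trivial. -/
theorem trivial_of_local {X : Type} [TopologicalSpace X] {H : Type} [Group H] (Φ : PF X H)
    (U : Set (Set X)) (hopen : ∀ u ∈ U, IsOpen u) (hcover : ∀ x : X, ∃ u ∈ U, x ∈ u)
    (h : ∀ u ∈ U, ∀ (x y : X) (p : Path x y), (∀ t, p t ∈ u) → Φ.val p = 1)
    {x y : X} (p : Path x y) : Φ.val p = 1 := by
  let Ψ : PF X H :=
    { val := fun _ => 1
      homot := fun _ => rfl
      trans := fun _ _ => by simp }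
  exact agree Φ Ψ U hopen hcover (fun u hu x y p hp => h u hu x y p hp) p

end H13F2
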