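import Mathlib

/-!
# H13F2, F2: the factors of a free group of finite rank are free of finite rank
-/

set_option autoImplicit false

namespace H13F2

/-- A free group with finitely many homomorphisms to `ℤ / 2` is free of finite rank. -/
theorem free_of_finite_hom {A : Type} [Group A] [IsFreeGroup A]
    (hfin : Finite (A →* Multiplicative (ZMod 2))) :
    ∃ a : ℕ, Nonempty (A ≃* FreeGroup (Fin a)) := by
  classical
  let X := IsFreeGroup.Generators A
  let e : FreeGroup X ≃* A := IsFreeGroup.mulEquiv A
  -- the homomorphisms of the free group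
  let F : X → (A →* Multiplicative (ZMod 2)) := fun x =>
    (FreeGroup.lift (fun y : X => if y = x then Multiplicative.ofAdd (1 : ZMod 2) else 1)).comp
      e.symm.toMonoidHom
  have hF : Function.Injective F := by
    intro x y hxy
    have h1 := DFunLike.congr_fun hxy (e (FreeGroup.of x))
    simp only [F, MonoidHom.comp_apply, MulEquiv.coe_toMonoidHom, MulEquiv.symm_apply_apply,
      FreeGroup.lift_apply_of, if_true] at h1
    by_contra hne
    rw [if_neg hne] at h1
    have h2 : (1 : ZMod 2) = 0 := h1
    exact one_ne_zero h2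
  have hX : Finite X := Finite.of_injective F hF
  obtain ⟨a, ⟨g⟩⟩ := Finite.exists_equiv_fin X
  exact ⟨a, ⟨e.symm.trans (FreeGroup.freeGroupCongr g)⟩⟩

/-- A free factor of a free group with finitely many homomorphisms to `ℤ / 2` is free of finite
rank. -/
theorem factor_free_left {G A B : Type} [Group G] [Group A] [Group B] (e : G ≃* Monoid.Coprod A B)
    [IsFreeGroup G] (hfin : Finite (G →* Multiplicative (ZMod 2))) :
    ∃ a : ℕ, Nonempty (A ≃* FreeGroup (Fin a)) := by
  let i : A →* G := e.symm.toMonoidHom.comp Monoid.Coprod.inl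
  let p : G →* A := Monoid.Coprod.fst.comp e.toMonoidHom
  have hpi : ∀ a, p (i a) = a := by
    intro a
    simp [p, i]
  have hi : Function.Injective i := Function.LeftInverse.injective hpi
  have hfree : IsFreeGroup i.range := inferInstance
  let ei : A ≃* i.range := MonoidHom.ofInjective hi
  have hA : IsFreeGroup A := IsFreeGroup.ofMulEquiv ei.symm
  apply free_of_finite_hom
  refine Finite.of_injective (fun φ : A →* Multiplicative (ZMod 2) => φ.comp p) ?_
  intro φ ψ h
  ext a
  have h1 := DFunLike.congr_fun h (i a)
  simp only [MonoidHom.comp_apply, hpi] at h1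
  rw [h1]

/-- Both factors. -/
theorem factor_free {G A B : Type} [Group G] [Group A] [Group B] (e : G ≃* Monoid.Coprod A B)
    [IsFreeGroup G] (hfin : Finite (G →* Multiplicative (ZMod 2))) :
    (∃ a : ℕ, Nonempty (A ≃* FreeGroup (Fin a))) ∧ ∃ b : ℕ, Nonempty (B ≃* FreeGroup (Fin b)) :=
  ⟨factor_free_left e hfin, factor_free_left (e.trans (MulEquiv.coprodComm A B)) hfin⟩

end H13F2
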