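import Pool.Agent.Lib.H13F2.F2
import Pool.Agent.Lib.H13K.M
import Pool.Agent.Lib.H13K.Q1

/-!
# H13F2, F3: the free group of rank r is quasi-projective
-/

set_option autoImplicit false

open scoped unitInterval

namespace H13F2

open H13K

/-- `IsQP` is invariant under isomorphisms. -/
theorem isQP_congr {G H : Type} [Group G] [Group H] (e : G ≃* H) (hG : IsQP G) : IsQP H := by
  obtain ⟨n, S, hS, hsm, x, ⟨f⟩⟩ := hG
  exact ⟨n, S, hS, hsm, x, ⟨f.trans e⟩⟩

/-- The constant polynomials. -/
noncomputable def cP (r : ℕ) : Fin r → MvPolynomial (Fin 0) ℂ := fun i => MvPolynomial.C ((i : ℕ) : ℂ)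

theorem cP_apply (r : ℕ) (i : Fin r) (z : Fin 0 → ℂ) : pg (cP r) i z = ((i : ℕ) : ℂ) := by
  simp [pg, cP]

theorem cP_inj (r : ℕ) : Function.Injective (cP r) := by
  intro i j h
  have h1 : ((i : ℕ) : ℂ) = ((j : ℕ) : ℂ) := MvPolynomial.C_injective (Fin 0) ℂ h
  exact Fin.ext (Nat.cast_injective h1)

theorem cP_ne (r : ℕ) (i : Fin r) (z : Fin 0 → ℂ) (j : Fin r) (hj : j ≠ i) :
    pg (cP r) i z ≠ pg (cP r) j z := by
  rw [cP_apply, cP_apply]
  intro h
  exact hj (Fin.ext (Nat.cast_injective h)).symm

/-- The points removed from the plane. -/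
noncomputable def cS (r : ℕ) : Finset ℂ := Finset.univ.image fun i : Fin r => ((i : ℕ) : ℂ)

/-- The projection to the plane. -/
noncomputable def toPlane (r : ℕ) : C(XX (pg (cP r)), {z : ℂ // z ∉ cS r}) where
  toFun x := ⟨x.1.2, by
    intro h
    obtain ⟨i, -, hi⟩ := Finset.mem_image.1 h
    apply x.2 i
    rw [cP_apply]
    exact hi.symm⟩
  continuous_toFun := by
    apply Continuous.subtype_mk
    fun_prop

/-- The inverse. -/
noncomputable def ofPlane (r : ℕ) : C({z : ℂ // z ∉ cS r}, XX (pg (cP r))) where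
  toFun w := ⟨(0, w.1), by
    intro i h
    apply w.2
    refine Finset.mem_image.2 ⟨i, Finset.mem_univ _, ?_⟩
    rw [← cP_apply r i 0]
    exact h.symm⟩
  continuous_toFun := by
    apply Continuous.subtype_mk
    fun_prop

theorem ofPlane_toPlane (r : ℕ) (x : XX (pg (cP r))) : ofPlane r (toPlane r x) = x := by
  apply Subtype.ext
  apply Prod.ext
  · exact Subsingleton.elim _ _
  · rfl

/-- The statement of F1 for one set. -/
def FreeEmbed (S : Finset ℂ) : Prop :=
  ∃ (Y : Type) (Ψ : PF {z : ℂ // z ∉ S} (FreeGroup Y)),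
    ∀ (x : {z : ℂ // z ∉ S}) (p : Path x x), Ψ.val p = 1 → p.Homotopic (Path.refl x)

/-- Every element of the fundamental group is the class of a loop. -/
theorem fromPath_surj {X : Type} [TopologicalSpace X] (x₀ : X) (g : FundamentalGroup X x₀) :
    ∃ p : Path x₀ x₀, FundamentalGroup.fromPath (Path.Homotopic.Quotient.mk p) = g := by
  obtain ⟨p, hp⟩ := Path.Homotopic.Quotient.mk_surjective (FundamentalGroup.toPath g)
  refine ⟨p, ?_⟩
  rw [hp]

/-- The fundamental group is free. -/
theorem isFree (r : ℕ) (hF : FreeEmbed (cS r)) (x₀ : XX (pg (cP r))) :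
    IsFreeGroup (FundamentalGroup (XX (pg (cP r))) x₀) := by
  obtain ⟨Y, Ψ, hΨ⟩ := hF
  obtain ⟨w, hw⟩ := exists_hom (Ψ.comap (toPlane r)) x₀
  have hinj : Function.Injective w := by
    rw [injective_iff_map_eq_one]
    intro g hg
    obtain ⟨p, rfl⟩ := fromPath_surj x₀ g
    rw [hw] at hg
    have h1 : (p.map (toPlane r).continuous).Homotopic (Path.refl _) := hΨ _ _ hg
    have h2 := h1.map (ofPlane r)
    have h3 : ((p.map (toPlane r).continuous).map (ofPlane r).continuous) =
        p.cast (ofPlane_toPlane r x₀) (ofPlane_toPlane r x₀) := by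
      apply Path.ext
      funext t
      exact ofPlane_toPlane r (p t)
    have h4 : ((Path.refl (toPlane r x₀)).map (ofPlane r).continuous) =
        (Path.refl x₀).cast (ofPlane_toPlane r x₀) (ofPlane_toPlane r x₀) := by
      apply Path.ext
      funext t
      exact ofPlane_toPlane r x₀
    rw [h3, h4] at h2
    have h5 : p.Homotopic (Path.refl x₀) := t5b_cast_homotopic _ _ h2
    have h6 : Path.Homotopic.Quotient.mk p = Path.Homotopic.Quotient.mk (Path.refl x₀) :=
      Path.Homotopic.Quotient.eq.2 h5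
    rw [h6]
    rfl
  have hfree : IsFreeGroup w.range := inferInstance
  exact IsFreeGroup.ofMulEquiv (MonoidHom.ofInjective hinj).symm

/-- The set of all meridians: a homomorphism to a commutative group that kills one meridian around
each point is trivial. -/
theorem hom_eq_one (r : ℕ) (x₀ : XX (pg (cP r)))
    (Φ : PF (XX (pg (cP r))) (FundamentalGroup (XX (pg (cP r))) x₀))
    (hΦ : ∀ p : Path x₀ x₀, Φ.val p = FundamentalGroup.fromPath (Path.Homotopic.Quotient.mk p))
    (a : Fin r → ℂ) (ha : ∀ i, Adm (pg (cP r)) i 0 (a i))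
    {H : Type} [CommGroup H] (χ : FundamentalGroup (XX (pg (cP r))) x₀ →* H)
    (hχ : ∀ i, χ (Φ.val (mer (pg (cP r)) i 0 (a i) (ha i))) = 1) : χ = 1 := by
  have hk : Kills (Φ.push χ) := by
    intro i z b hb
    obtain ⟨q, hq⟩ := mer_conj (pg (cP r)) i (pc_i (cP r) (cP_inj r) i) (ha i) hb
    have h1 := Φ.homot hq
    rw [Φ.trans, Φ.trans] at h1
    have h2 := congrArg χ h1
    rw [map_mul, map_mul, hχ i, mul_one] at h2
    show χ (Φ.val (mer (pg (cP r)) i z b hb)) = 1
    exact (mul_eq_right.1 h2.symm)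
  ext g
  obtain ⟨p, rfl⟩ := fromPath_surj x₀ g
  have h := kills_all (pg (cP r)) (ball_DD (cP r) (cP_inj r)) (Φ.push χ) hk x₀ p
  rw [← hΦ p]
  exact h

/-- The fundamental group is free of rank r. -/
theorem free_rank (r : ℕ) (hF : FreeEmbed (cS r)) (x₀ : XX (pg (cP r))) :
    Nonempty (FundamentalGroup (XX (pg (cP r))) x₀ ≃* FreeGroup (Fin r)) := by
  have hpc : PathConnectedSpace (XX (pg (cP r))) := XX_pathConnected _
  obtain ⟨Φ, hΦ⟩ := exists_univ x₀
  choose a ha using fun i : Fin r => exists_adm (pg (cP r)) i 0 (cP_ne r i 0)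
  have hfree := isFree r hF x₀
  let M := Multiplicative (ZMod 2)
  let Θ : (FundamentalGroup (XX (pg (cP r))) x₀ →* M) → (Fin r → M) := fun φ i =>
    φ (Φ.val (mer (pg (cP r)) i 0 (a i) (ha i)))
  have hΘ : Function.Injective Θ := by
    intro φ ψ h
    have h1 : φ / ψ = 1 := by
      apply hom_eq_one r x₀ Φ hΦ a ha
      intro i
      have h2 := congrFun h i
      show φ _ / ψ _ = 1
      rw [div_eq_one]
      exact h2
    exact div_eq_one.1 h1
  have hfin : Finite (FundamentalGroup (XX (pg (cP r))) x₀ →* M) := Finite.of_injective Θ hΘ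
  obtain ⟨k, ⟨e⟩⟩ := free_of_finite_hom hfin
  -- k ≤ r
  have hle : k ≤ r := by
    have h1 : Nat.card (FundamentalGroup (XX (pg (cP r))) x₀ →* M) ≤ Nat.card (Fin r → M) :=
      Nat.card_le_card_of_injective Θ hΘ
    let E : (Fin k → M) ≃ (FundamentalGroup (XX (pg (cP r))) x₀ →* M) :=
      FreeGroup.lift.trans
        { toFun := fun φ => φ.comp e.toMonoidHom
          invFun := fun φ => φ.comp e.symm.toMonoidHom
          left_inv := fun φ => by ext; simp
          right_inv := fun φ => by ext; simp }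
    rw [← Nat.card_congr E] at h1
    have h2 : ∀ m : ℕ, Nat.card (Fin m → M) = 2 ^ m := by
      intro m
      rw [Nat.card_eq_fintype_card, Fintype.card_fun, Fintype.card_fin]
      rfl
    rw [h2, h2] at h1
    exact (Nat.pow_le_pow_iff_right (by norm_num)).1 h1
  -- r ≤ k
  have hge : r ≤ k := by
    choose w hw using fun l : Fin r => exists_wind (pg (cP r)) x₀ Φ hΦ l
    have hm : ∀ l i : Fin r, (w l (Φ.val (mer (pg (cP r)) i 0 (a i) (ha i)))).toAdd =
        if l = i then 1 else 0 := by
      intro l i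
      obtain ⟨ℓ, h1, h2⟩ := mer_log (pg (cP r)) i 0 (a i) (ha i) l
      rw [hw l _ _ ℓ h1, h2]
      split_ifs
      · exact inv_mul_cancel₀ (by simp [Real.pi_ne_zero])
      · exact mul_zero _
    let v : Fin r → (Fin k → ℂ) := fun l j => (w l (e.symm (FreeGroup.of j))).toAdd
    have hli : LinearIndependent ℂ v := by
      rw [Fintype.linearIndependent_iff]
      intro c hc i
      let χ : FundamentalGroup (XX (pg (cP r))) x₀ →* Multiplicative ℂ :=
        { toFun := fun g => Multiplicative.ofAdd (∑ l, c l * (w l g).toAdd)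
          map_one' := by
            have h0 : ∀ l, (w l 1).toAdd = 0 := fun l => by
              rw [map_one]
              rfl
            simp only [h0, mul_zero, Finset.sum_const_zero]
            rfl
          map_mul' := fun g g' => by
            rw [← ofAdd_add, ← Finset.sum_add_distrib]
            congr 1
            refine Finset.sum_congr rfl fun l _ => ?_
            rw [map_mul, toAdd_mul]
            ring }
      have h1 : χ.comp e.symm.toMonoidHom = 1 := by
        apply FreeGroup.ext_hom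
        intro j
        have h2 := congrFun hc j
        show Multiplicative.ofAdd (∑ l, c l * (w l (e.symm (FreeGroup.of j))).toAdd) = 1
        have h3 : ∑ l, c l * (w l (e.symm (FreeGroup.of j))).toAdd = 0 := by
          simpa [v] using h2
        rw [h3]
        rfl
      have h4 : χ (Φ.val (mer (pg (cP r)) i 0 (a i) (ha i))) = 1 := by
        have h5 := DFunLike.congr_fun h1 (e (Φ.val (mer (pg (cP r)) i 0 (a i) (ha i))))
        simpa using h5
      have h6 : ∑ l, c l * (w l (Φ.val (mer (pg (cP r)) i 0 (a i) (ha i)))).toAdd = 0 := h4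
      simpa [hm] using h6
    have h := hli.fintype_card_le_finrank
    simpa using h
  have hk : k = r := le_antisymm hle hge
  subst hk
  exact ⟨e⟩

/-- Conditional form. -/
theorem qp_free_of (hF : ∀ S : Finset ℂ, FreeEmbed S) (r : ℕ) : IsQP (FreeGroup (Fin r)) := by
  have hpc : PathConnectedSpace (XX (pg (cP r))) := XX_pathConnected _
  obtain ⟨x₀⟩ := hpc.nonempty
  obtain ⟨e⟩ := free_rank r (hF _) x₀
  exact isQP_congr e (qp_graph (cP r) x₀)

end H13F2
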