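import Pool.Agent.Lib.H13F2.F1
import Pool.Agent.Lib.H13F2.F3

/-!
# H13F2, F4: the free group of rank r is quasi-projective
-/

set_option autoImplicit false

namespace H13F2

open H13K

/-- The free group of rank `r` is quasi-projective: it is the fundamental group of the plane
without `r` points. -/
theorem qp_free (r : ℕ) : IsQP (FreeGroup (Fin r)) := qp_free_of (fun S => free_embed S) r

end H13F2
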