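import Pool.Agent.Lib.H13K.Defs2

/-!
# H13F2, FA: gluing of functionals that are coboundaries on the members of an open cover
-/

set_option autoImplicit false

open scoped unitInterval Topology

namespace H13F2

open H13K

section glue

variable {B : Type} [TopologicalSpace B] {H : Type} [Group H] {J : Type} {V : J → Set B}
  {a : J → B → H}

/-- the bundle -/
private noncomputable def fbc [TopologicalSpace H] [DiscreteTopology H]
    (hopen : ∀ j, IsOpen (V j)) (hcov : ∀ x, ∃ j, x ∈ V j)
    (hloc : ∀ i j x, x ∈ V i → x ∈ V j →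
      ∀ᶠ y in 𝓝 x, (a j y)⁻¹ * a i y = (a j x)⁻¹ * a i x) : FiberBundleCore J B H where
  baseSet := V
  isOpen_baseSet := hopen
  indexAt x := (hcov x).choose
  mem_baseSet_at x := (hcov x).choose_spec
  coordChange i j x h := (a j x)⁻¹ * a i x * h
  coordChange_self i x hx h := by rw [inv_mul_cancel, one_mul]
  continuousOn_coordChange i j := by
    rintro ⟨x, h⟩ ⟨⟨hi, hj⟩, -⟩
    have h1 : ContinuousAt (fun p : B × H => (a j x)⁻¹ * a i x * p.2) (x, h) :=
      ((continuous_of_discreteTopology (f := fun g : H => (a j x)⁻¹ * a i x * g)).comp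
        continuous_snd).continuousAt
    refine (h1.congr ?_).continuousWithinAt
    have h2 : ∀ᶠ p : B × H in 𝓝 (x, h), (a j p.1)⁻¹ * a i p.1 = (a j x)⁻¹ * a i x :=
      (continuous_fst.tendsto (x, h)).eventually (hloc i j x hi hj)
    filter_upwards [h2] with p hp
    rw [hp]
  coordChange_comp i j k x hx h := by group

/-- continuity of a map into the bundle -/
private theorem contAt [TopologicalSpace H] [DiscreteTopology H]
    (hopen : ∀ j, IsOpen (V j)) (hcov : ∀ x, ∃ j, x ∈ V j)
    (hloc : ∀ i j x, x ∈ V i → x ∈ V j →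
      ∀ᶠ y in 𝓝 x, (a j y)⁻¹ * a i y = (a j x)⁻¹ * a i x)
    {A : Type} [TopologicalSpace A] (f : A → B) (g : A → H) (t0 : A) (i : J) (hi : f t0 ∈ V i)
    (h1 : ContinuousAt f t0)
    (h2 : ContinuousAt (fun t => (a i (f t))⁻¹ * a (hcov (f t)).choose (f t) * g t) t0) :
    ContinuousAt (fun t => (⟨f t, g t⟩ : (fbc hopen hcov hloc).TotalSpace)) t0 := by
  set Z := fbc hopen hcov hloc with hZ
  have hnhds : f ⁻¹' (V i) ∈ 𝓝 t0 := h1 ((hopen i).mem_nhds hi)
  rw [(Z.localTriv i).toOpenPartialHomeomorph.continuousAt_iff_continuousAt_comp_left (by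
    rw [(Z.localTriv i).source_eq]
    exact hnhds)]
  exact h1.prodMk h2

end glue

/-- Gluing. Proof: `FiberBundleCore` with index type `J`, base sets `V j`, discrete fibre `H`, the
coordinate `h` in the chart `i` is `(a j y)⁻¹ * a i y * h` in the chart `j` (continuous because it is
locally constant); lift the path from the point with coordinate `1` in the chart `indexAt x`
(`H13K.T1b`), read the coordinate of the end in the chart `indexAt y`: value `v p`; right
multiplication gives `v (p.trans q) = v q * v p`; inside `V i` the value is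
`(a (idx y) y)⁻¹ * a i y * ((a (idx x) x)⁻¹ * a i x)⁻¹`; so `Ψ p = a (idx y) y * v p * (a (idx x) x)⁻¹`
has the value that is claimed. -/
theorem glue {B : Type} [TopologicalSpace B] {H : Type} [Group H] {J : Type} (V : J → Set B)
    (hopen : ∀ j, IsOpen (V j)) (hcov : ∀ x, ∃ j, x ∈ V j) (a : J → B → H)
    (hloc : ∀ i j x, x ∈ V i → x ∈ V j →
      ∀ᶠ y in 𝓝 x, (a j y)⁻¹ * a i y = (a j x)⁻¹ * a i x) :
    ∃ Ψ : PF B H, ∀ (j : J) {x y : B} (p : Path x y), (∀ t, p t ∈ V j) →
      Ψ.val p = a j y * (a j x)⁻¹ := by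
  let _ : TopologicalSpace H := ⊥
  have _ : DiscreteTopology H := ⟨rfl⟩
  set Z := fbc hopen hcov hloc with hZ
  have cov : IsCoveringMap (Bundle.TotalSpace.proj : Z.TotalSpace → B) :=
    FiberBundle.isCoveringMap
  let idx : B → J := fun x => (hcov x).choose
  let pt : B → H → Z.TotalSpace := fun x h => ⟨x, h⟩
  let co : Z.TotalSpace → H := fun e => e.2
  have hpt : ∀ (e : Z.TotalSpace) (y : B), e.proj = y → e = pt y (co e) := by
    rintro ⟨x, h⟩ y rfl
    rfl
  -- the end of the lift
  let E : ∀ {x y : B} (p : Path x y), Z.TotalSpace := fun {x y} p =>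
    cov.liftPath p.toContinuousMap (pt x 1) p.source 1
  have hE : ∀ {x y : B} (p : Path x y), (E p).proj = y := by
    intro x y p
    have h1 := congr_fun (cov.liftPath_lifts p.toContinuousMap (pt x 1) p.source) 1
    exact h1.trans p.target
  -- right multiplication
  have hR : ∀ {x y : B} (p : Path x y) (h : H) (h0 : p.toContinuousMap 0 = (pt x h).proj),
      cov.liftPath p.toContinuousMap (pt x h) h0 1 = pt y (co (E p) * h) := by
    intro x y p h h0
    let Γ := cov.liftPath p.toContinuousMap (pt x 1) p.source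
    have hΓ : ∀ t, (Γ t).proj = p t :=
      congr_fun (cov.liftPath_lifts p.toContinuousMap (pt x 1) p.source)
    have hcont : Continuous (fun t : I => pt (Γ t).proj (co (Γ t) * h)) := by
      rw [continuous_iff_continuousAt]
      intro t0
      have hmem : (Γ t0).proj ∈ V (idx (Γ t0).proj) := (hcov (Γ t0).proj).choose_spec
      refine contAt hopen hcov hloc (fun t => (Γ t).proj) (fun t => co (Γ t) * h) t0
        (idx (Γ t0).proj) hmem (cov.continuous.comp Γ.continuous).continuousAt ?_
      have h1 : ContinuousAt (fun t => (Z.localTriv (idx (Γ t0).proj)) (Γ t)) t0 := by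
        refine ContinuousAt.comp' (f := Γ) (g := Z.localTriv (idx (Γ t0).proj)) ?_
          Γ.continuous.continuousAt
        apply (Z.localTriv (idx (Γ t0).proj)).continuousAt
        rw [(Z.localTriv (idx (Γ t0).proj)).mem_source]
        exact hmem
      have h2 : ContinuousAt (fun t => ((Z.localTriv (idx (Γ t0).proj)) (Γ t)).2 * h) t0 :=
        (continuous_of_discreteTopology (f := fun g : H => g * h)).continuousAt.comp' h1.snd
      refine h2.congr (Filter.Eventually.of_forall fun t => ?_)
      change (a (idx (Γ t0).proj) (Γ t).proj)⁻¹ * a (idx (Γ t).proj) (Γ t).proj * co (Γ t) * h =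
        (a (idx (Γ t0).proj) (Γ t).proj)⁻¹ * a (idx (Γ t).proj) (Γ t).proj * (co (Γ t) * h)
      rw [mul_assoc _ _ h]
    have hlift : (⟨_, hcont⟩ : C(I, Z.TotalSpace)) =
        cov.liftPath p.toContinuousMap (pt x h) h0 := by
      rw [cov.eq_liftPath_iff']
      refine ⟨funext fun t => hΓ t, ?_⟩
      change pt (Γ 0).proj (co (Γ 0) * h) = pt x h
      have h3 : Γ 0 = pt x 1 := cov.liftPath_zero _ _ _
      rw [h3]
      change pt x (1 * h) = pt x h
      rw [one_mul]
    rw [← hlift]
    change pt (Γ 1).proj (co (Γ 1) * h) = _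
    rw [hΓ 1, p.target]
  refine ⟨{ val := fun {x y} p => a (idx y) y * co (E p) * (a (idx x) x)⁻¹
            homot := ?_
            trans := ?_ }, ?_⟩
  · intro x y p q h
    have h1 : E p = E q := cov.liftPath_apply_one_eq_of_homotopicRel h (pt x 1) p.source q.source
    rw [h1]
  · intro x y z p q
    have h1 : E (p.trans q) = pt z (co (E q) * co (E p)) := by
      have h2 := cov.liftPath_trans (e := pt x 1) (x := x) rfl p q
      have h3 : E (p.trans q) = cov.liftPath q.toContinuousMap (E p) (by
          rw [hE p]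
          exact q.source) 1 := by
        have h4 := congrArg (fun f : C(I, Z.TotalSpace) => f 1) h2
        refine h4.trans ?_
        exact Path.target _
      have h5 : ∀ (e : Z.TotalSpace) (he : e = pt y (co (E p))) (h0 : q.toContinuousMap 0 = e.proj),
          cov.liftPath q.toContinuousMap e h0 1 = pt z (co (E q) * co (E p)) := by
        intro e he h0
        subst he
        exact hR q (co (E p)) h0
      rw [h3]
      exact h5 (E p) (hpt (E p) y (hE p)) _
    rw [h1]
    change a (idx z) z * (co (E q) * co (E p)) * (a (idx x) x)⁻¹ = _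
    group
  · intro i x y p hp
    have hcont : Continuous (fun t : I =>
        pt (p t) ((a (idx (p t)) (p t))⁻¹ * a i (p t) * ((a i x)⁻¹ * a (idx x) x))) := by
      rw [continuous_iff_continuousAt]
      intro t0
      refine contAt hopen hcov hloc (fun t => p t) _ t0 i (hp t0) p.continuous.continuousAt ?_
      refine (continuousAt_const (y := (a i x)⁻¹ * a (idx x) x)).congr
        (Filter.Eventually.of_forall fun t => ?_)
      change _ = (a i (p t))⁻¹ * a (idx (p t)) (p t) *
        ((a (idx (p t)) (p t))⁻¹ * a i (p t) * ((a i x)⁻¹ * a (idx x) x))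
      group
    have hlift : (⟨_, hcont⟩ : C(I, Z.TotalSpace)) =
        cov.liftPath p.toContinuousMap (pt x 1) p.source := by
      rw [cov.eq_liftPath_iff']
      refine ⟨rfl, ?_⟩
      change pt (p 0) ((a (idx (p 0)) (p 0))⁻¹ * a i (p 0) * ((a i x)⁻¹ * a (idx x) x)) = pt x 1
      rw [p.source]
      congr 1
      group
    have h1 : E p = pt y ((a (idx y) y)⁻¹ * a i y * ((a i x)⁻¹ * a (idx x) x)) := by
      change cov.liftPath p.toContinuousMap (pt x 1) p.source 1 = _
      rw [← hlift]
      change pt (p 1) ((a (idx (p 1)) (p 1))⁻¹ * a i (p 1) * ((a i x)⁻¹ * a (idx x) x)) = _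
      rw [p.target]
    change a (idx y) y * co (E p) * (a (idx x) x)⁻¹ = a i y * (a i x)⁻¹
    rw [h1]
    change a (idx y) y * ((a (idx y) y)⁻¹ * a i y * ((a i x)⁻¹ * a (idx x) x)) *
      (a (idx x) x)⁻¹ = a i y * (a i x)⁻¹
    group

end H13F2
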