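import Pool.Agent.Lib.H13F2.FD
import Pool.Agent.Lib.H13F2.FA

/-!
# H13F2, FB: the functional with values in the free group
-/

set_option autoImplicit false

open scoped unitInterval Topology

namespace H13F2

open H13K

private theorem fb_min {A : Type} [DecidableEq A] (T : Finset A) (f : A → ℝ) (hf : ∀ t ∈ T, 0 < f t) :
    ∃ ε : ℝ, 0 < ε ∧ ∀ t ∈ T, ε ≤ f t := by
  induction T using Finset.induction_on with
  | empty => exact ⟨1, one_pos, by simp⟩
  | insert a T ha ih =>
    obtain ⟨ε, hε, h⟩ := ih (fun t ht => hf t (Finset.mem_insert_of_mem ht))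
    refine ⟨min ε (f a), lt_min hε (hf a (Finset.mem_insert_self a T)), fun t ht => ?_⟩
    rcases Finset.mem_insert.1 ht with h1 | h1
    · rw [h1]
      exact min_le_right _ _
    · exact (min_le_left _ _).trans (h t h1)

/-- Proof: all but finitely many `δ` separate the points of `S`. -/
theorem exists_good (S : Finset ℂ) : ∃ δ ε : ℝ, Good S δ ε := by
  classical
  let bad : Finset ℝ := (S ×ˢ S).image fun p => -(p.1.re - p.2.re) / (p.1.im - p.2.im)
  obtain ⟨δ, hδ⟩ := Infinite.exists_notMem_finset bad
  have hne : ∀ s ∈ S, ∀ t ∈ S, s ≠ t → ell δ s ≠ ell δ t := by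
    intro s hs t ht hst h
    unfold ell at h
    by_cases him : s.im - t.im = 0
    · apply hst
      have h1 : s.im = t.im := sub_eq_zero.1 him
      apply Complex.ext
      · rw [h1] at h
        linarith
      · exact h1
    · apply hδ
      refine Finset.mem_image.2 ⟨(s, t), Finset.mem_product.2 ⟨hs, ht⟩, ?_⟩
      rw [div_eq_iff him]
      linarith
  obtain ⟨ε, hε, h⟩ := fb_min ((S ×ˢ S).filter fun p => p.1 ≠ p.2)
    (fun p => |ell δ p.1 - ell δ p.2|) (by
      rintro ⟨s, t⟩ hp
      rw [Finset.mem_filter, Finset.mem_product] at hp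
      exact abs_pos.2 (sub_ne_zero.2 (hne s hp.1.1 t hp.1.2 hp.2)))
  refine ⟨δ, ε / 2, half_pos hε, ?_⟩
  intro s hs t ht hst
  have := h (s, t) (Finset.mem_filter.2 ⟨Finset.mem_product.2 ⟨hs, ht⟩, hst⟩)
  linarith

private theorem fb_cont (S : Finset ℂ) (δ : ℝ) : Continuous fun z : XS S => ell δ z.1 := by
  unfold ell
  exact (Complex.continuous_re.comp continuous_subtype_val).add
    (continuous_const.mul (Complex.continuous_im.comp continuous_subtype_val))

private theorem fb_im (S : Finset ℂ) : Continuous fun z : XS S => z.1.im :=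
  Complex.continuous_im.comp continuous_subtype_val

theorem isOpen_VV (S : Finset ℂ) (δ ε : ℝ) (j : Option ℂ) : IsOpen (VV S δ ε j) := by
  rcases j with _ | s
  · have h : VV S δ ε none =
        ⋂ s ∈ S, ({z : XS S | ell δ z.1 ≠ ell δ s} ∪ {z : XS S | s.im < z.1.im}) := by
      ext z
      simp only [VV, Set.mem_setOf_eq, Set.mem_iInter, Set.mem_union]
      constructor
      · intro h s hs
        by_cases he : ell δ z.1 = ell δ s
        · exact Or.inr (h s hs he)
        · exact Or.inl he
      · intro h s hs he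
        rcases h s hs with h1 | h1
        · exact absurd he h1
        · exact h1
    rw [h]
    refine isOpen_biInter_finset fun s _ => ?_
    exact (isOpen_ne_fun (fb_cont S δ) continuous_const).union
      (isOpen_lt continuous_const (fb_im S))
  · by_cases hs : s ∈ S
    · have h : VV S δ ε (some s) =
          {z : XS S | |ell δ z.1 - ell δ s| < ε} ∩ {z : XS S | z.1.im < s.im} := by
        ext z
        simp only [VV, Set.mem_setOf_eq, Set.mem_inter_iff, hs, true_and]
      rw [h]
      exact (isOpen_lt ((fb_cont S δ).sub continuous_const).abs continuous_const).inter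
        (isOpen_lt (fb_im S) continuous_const)
    · have h : VV S δ ε (some s) = ∅ := by
        ext z
        simp only [VV, Set.mem_setOf_eq, hs, false_and, Set.mem_empty_iff_false]
      rw [h]
      exact isOpen_empty

theorem cover_VV {S : Finset ℂ} {δ ε : ℝ} (h : Good S δ ε) (z : XS S) :
    ∃ j, z ∈ VV S δ ε j := by
  by_cases hz : z ∈ VV S δ ε none
  · exact ⟨none, hz⟩
  · have h1 : ∃ s ∈ S, ell δ z.1 = ell δ s ∧ z.1.im ≤ s.im := by
      by_contra hcon
      push Not at hcon
      exact hz fun s hs he => hcon s hs he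
    obtain ⟨s, hs, he, hle⟩ := h1
    refine ⟨some s, hs, ?_, ?_⟩
    · rw [he, sub_self, abs_zero]
      exact h.pos
    · refine lt_of_le_of_ne hle fun him => ?_
      apply z.2
      have : z.1 = s := by
        apply Complex.ext
        · unfold ell at he
          rw [him] at he
          linarith
        · exact him
      rw [this]
      exact hs

private theorem fb_loc (S : Finset ℂ) (δ : ℝ) (s : ℂ) (x : XS S) (hx : ell δ x.1 ≠ ell δ s) :
    ∀ᶠ y in 𝓝 x, aa S δ (some s) y = aa S δ (some s) x := by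
  rcases lt_or_gt_of_ne hx with h | h
  · have h1 : ∀ᶠ y : XS S in 𝓝 x, ell δ y.1 < ell δ s :=
      (fb_cont S δ).continuousAt.eventually_lt continuousAt_const h
    filter_upwards [h1] with y hy
    simp only [aa]
    rw [if_pos hy.le, if_pos h.le]
  · have h1 : ∀ᶠ y : XS S in 𝓝 x, ell δ s < ell δ y.1 :=
      continuousAt_const.eventually_lt (fb_cont S δ).continuousAt h
    filter_upwards [h1] with y hy
    simp only [aa]
    rw [if_neg (not_le.2 hy), if_neg (not_le.2 h)]

private theorem fb_ne {S : Finset ℂ} {δ ε : ℝ} {s : ℂ} {x : XS S} (h0 : x ∈ VV S δ ε none)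
    (hs : x ∈ VV S δ ε (some s)) : ell δ x.1 ≠ ell δ s := by
  intro he
  have h1 : s.im < x.1.im := h0 s hs.1 he
  exact lt_asymm h1 hs.2.2

theorem loc_aa {S : Finset ℂ} {δ ε : ℝ} (h : Good S δ ε) (i j : Option ℂ) (x : XS S)
    (hi : x ∈ VV S δ ε i) (hj : x ∈ VV S δ ε j) :
    ∀ᶠ y in 𝓝 x, (aa S δ j y)⁻¹ * aa S δ i y = (aa S δ j x)⁻¹ * aa S δ i x := by
  rcases i with _ | s <;> rcases j with _ | t
  · exact Filter.Eventually.of_forall fun y => rfl
  · filter_upwards [fb_loc S δ t x (fb_ne hi hj)] with y hy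
    rw [hy]
    rfl
  · filter_upwards [fb_loc S δ s x (fb_ne hj hi)] with y hy
    rw [hy]
    rfl
  · by_cases hst : s = t
    · subst hst
      refine Filter.Eventually.of_forall fun y => ?_
      rw [inv_mul_cancel, inv_mul_cancel]
    · exfalso
      have h1 := h.sep s hi.1 t hj.1 hst
      have h2 : |ell δ s - ell δ t| < 2 * ε := by
        calc |ell δ s - ell δ t| = |(ell δ x.1 - ell δ t) - (ell δ x.1 - ell δ s)| := by
              congr 1
              ring
          _ ≤ |ell δ x.1 - ell δ t| + |ell δ x.1 - ell δ s| := abs_sub _ _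
          _ < ε + ε := add_lt_add hj.2.1 hi.2.1
          _ = 2 * ε := by ring
      exact absurd h1 (not_le.2 h2)

theorem exists_psi {S : Finset ℂ} {δ ε : ℝ} (h : Good S δ ε) :
    ∃ Ψ : PF (XS S) (FreeGroup ℂ), ∀ (j : Option ℂ) {x y : XS S} (p : Path x y),
      (∀ t, p t ∈ VV S δ ε j) → Ψ.val p = aa S δ j y * (aa S δ j x)⁻¹ :=
  glue (VV S δ ε) (isOpen_VV S δ ε) (cover_VV h) (aa S δ) (loc_aa h)

end H13F2
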