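import Pool.Agent.Lib.H13F2.FB
import Pool.Agent.Lib.H13K.G

/-!
# H13F2, FC: the functional `Ψ` is universal
-/

set_option autoImplicit false

open scoped unitInterval Topology

namespace H13F2

open H13K

/-- The straight segment in the unit interval. -/
private noncomputable def seg (a b : I) : Path a b where
  toFun s := ⟨(1 - (s : ℝ)) * a + s * b, by
    have h0 := s.2.1
    have h1 := s.2.2
    have ha0 := a.2.1
    have ha1 := a.2.2
    have hb0 := b.2.1
    have hb1 := b.2.2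
    constructor
    · nlinarith [mul_nonneg (sub_nonneg.2 h1) ha0, mul_nonneg h0 hb0]
    · nlinarith [mul_nonneg (sub_nonneg.2 h1) (sub_nonneg.2 ha1), mul_nonneg h0 (sub_nonneg.2 hb1)]⟩
  continuous_toFun := by
    apply Continuous.subtype_mk
    fun_prop
  source' := by
    apply Subtype.ext
    simp
  target' := by
    apply Subtype.ext
    simp

private theorem seg_dist (a b s : I) : dist (seg a b s) a ≤ dist b a := by
  have h0 := s.2.1
  have h1 := s.2.2
  have h : ((seg a b s : I) : ℝ) = (1 - (s : ℝ)) * a + s * b := rfl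
  rw [Subtype.dist_eq, Subtype.dist_eq, Real.dist_eq, Real.dist_eq, h]
  have h2 : (1 - (s : ℝ)) * a + s * b - a = s * (b - a) := by ring
  rw [h2, abs_mul, abs_of_nonneg h0]
  exact mul_le_of_le_one_left (abs_nonneg _) h1

section agree

variable {X H : Type} [TopologicalSpace X] [Group H]

/-- The value of the functional on the part of a path between two parameters. -/
private noncomputable def wv (Φ : PF X H) (P : C(I, X)) (s t : I) : H := (Φ.comap P).val (seg s t)

private theorem scI : SimplyConnectedSpace I := by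
  have h : ContractibleSpace I := (convex_Icc (0 : ℝ) 1).contractibleSpace ⟨0, by simp⟩
  infer_instance

private theorem wv_eq (Φ : PF X H) (P : C(I, X)) {s t : I} (r : Path s t) :
    wv Φ P s t = (Φ.comap P).val r := by
  have := scI
  exact PF.val_eq_of_simplyConnected _ _ _

private theorem wv_mul (Φ : PF X H) (P : C(I, X)) (s t r : I) :
    wv Φ P s r = wv Φ P t r * wv Φ P s t := by
  rw [wv_eq Φ P ((seg s t).trans (seg t r)), PF.trans]
  rfl

/-- Two functionals that agree on the paths inside the members of an open cover agree. -/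
theorem agree_cover {J : Type} (V : J → Set X)
    (hopen : ∀ j, IsOpen (V j)) (hcov : ∀ x, ∃ j, x ∈ V j) (Φ₁ Φ₂ : PF X H)
    (h : ∀ (j : J) {x y : X} (p : Path x y), (∀ t, p t ∈ V j) → Φ₁.val p = Φ₂.val p)
    {x y : X} (p : Path x y) : Φ₁.val p = Φ₂.val p := by
  set P : C(I, X) := p.toContinuousMap with hP
  have hloc : IsLocallyConstant (fun t : I => (wv Φ₂ P 0 t)⁻¹ * wv Φ₁ P 0 t) := by
    rw [IsLocallyConstant.iff_eventually_eq]
    intro t0
    obtain ⟨j, hj⟩ := hcov (P t0)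
    have h1 : P ⁻¹' (V j) ∈ 𝓝 t0 := ((hopen j).preimage P.continuous).mem_nhds hj
    obtain ⟨ε, hε, hball⟩ := Metric.mem_nhds_iff.1 h1
    filter_upwards [Metric.ball_mem_nhds t0 hε] with t ht
    have h2 : ∀ s, ((seg t0 t).map P.continuous) s ∈ V j := fun s =>
      hball (lt_of_le_of_lt (seg_dist t0 t s) ht)
    have h3 : wv Φ₁ P t0 t = wv Φ₂ P t0 t := h j ((seg t0 t).map P.continuous) h2
    rw [wv_mul Φ₁ P 0 t0 t, wv_mul Φ₂ P 0 t0 t, h3, mul_inv_rev, mul_assoc, inv_mul_cancel_left]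
  have h01 := hloc.apply_eq_of_preconnectedSpace 0 1
  have e0 : ∀ Φ : PF X H, wv Φ P 0 0 = 1 := by
    intro Φ
    rw [wv_eq Φ P (Path.refl 0), PF.val_refl]
  have e1 : ∀ Φ : PF X H, wv Φ P 0 1 = Φ.val p := by
    intro Φ
    rw [wv_eq Φ P (⟨ContinuousMap.id I, rfl, rfl⟩ : Path (0 : I) 1)]
    have h5 := Φ.val_cast p p.source p.target
    rw [← h5]
    rfl
  simp only [e0, e1, inv_one, mul_one] at h01
  rw [eq_comm, inv_mul_eq_one] at h01
  exact h01.symm

end agree

section plane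

variable {S : Finset ℂ} {H : Type} [Group H]

/-- paths in a subset of the plane -/
private theorem path_of_joined {C : Set ℂ} (hC : ∀ z ∈ C, z ∉ S) {x y : XS S}
    (h : JoinedIn C x.1 y.1) : ∃ p : Path x y, ∀ t, (p t).1 ∈ C := by
  refine ⟨{ toFun := fun t => ⟨h.somePath t, hC _ (h.somePath_mem t)⟩
            continuous_toFun := Continuous.subtype_mk h.somePath.continuous _
            source' := ?_
            target' := ?_ }, fun t => h.somePath_mem t⟩
  · apply Subtype.ext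
    exact h.somePath.source
  · apply Subtype.ext
    exact h.somePath.target

/-- the potential on a simply connected subset -/
private theorem potential (Φ : PF (XS S) H) (C : Set ℂ) (hC : ∀ z ∈ C, z ∉ S)
    [SimplyConnectedSpace C] :
    ∃ μ : XS S → H, ∀ {x y : XS S} (p : Path x y), (∀ t, (p t).1 ∈ C) →
      Φ.val p = μ y * (μ x)⁻¹ := by
  classical
  let i : C(C, XS S) := ⟨fun z => ⟨z.1, hC z.1 z.2⟩, by
    apply Continuous.subtype_mk
    exact continuous_subtype_val⟩
  obtain ⟨z0⟩ : Nonempty C := inferInstance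
  let μ : XS S → H := fun x => if hx : x.1 ∈ C then
    (Φ.comap i).val (PathConnectedSpace.somePath z0 (⟨x.1, hx⟩ : C)) else 1
  refine ⟨μ, ?_⟩
  intro x y p hp
  have hx : x.1 ∈ C := by
    have h := hp 0
    rwa [p.source] at h
  have hy : y.1 ∈ C := by
    have h := hp 1
    rwa [p.target] at h
  let p' : Path (⟨x.1, hx⟩ : C) (⟨y.1, hy⟩ : C) :=
    { toFun := fun t => ⟨(p t).1, hp t⟩
      continuous_toFun := Continuous.subtype_mk (continuous_subtype_val.comp p.continuous) _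
      source' := by
        apply Subtype.ext
        simp
      target' := by
        apply Subtype.ext
        simp }
  have h1 : Φ.val p = (Φ.comap i).val p' := rfl
  have h2 : μ x = (Φ.comap i).val (PathConnectedSpace.somePath z0 (⟨x.1, hx⟩ : C)) := dif_pos hx
  have h3 : μ y = (Φ.comap i).val (PathConnectedSpace.somePath z0 (⟨y.1, hy⟩ : C)) := dif_pos hy
  rw [h1, h2, h3, PF.val_eq_of_simplyConnected (Φ.comap i)
    (PathConnectedSpace.somePath z0 (⟨y.1, hy⟩ : C))
    ((PathConnectedSpace.somePath z0 (⟨x.1, hx⟩ : C)).trans p'), PF.trans, mul_inv_cancel_right]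

/-- two potentials differ by a constant on a connected part of the overlap -/
private theorem overlap (Φ : PF (XS S) H) (A : Set ℂ) (hA : ∀ z ∈ A, z ∉ S) (hc : Convex ℝ A)
    (C C' : Set ℂ) (hAC : A ⊆ C) (hAC' : A ⊆ C') (μ μ' : XS S → H)
    (hμ : ∀ {x y : XS S} (p : Path x y), (∀ t, (p t).1 ∈ C) → Φ.val p = μ y * (μ x)⁻¹)
    (hμ' : ∀ {x y : XS S} (p : Path x y), (∀ t, (p t).1 ∈ C') → Φ.val p = μ' y * (μ' x)⁻¹)
    (x y : XS S) (hx : x.1 ∈ A) (hy : y.1 ∈ A) : (μ' x)⁻¹ * μ x = (μ' y)⁻¹ * μ y := by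
  have hj : JoinedIn A x.1 y.1 := (hc.isPathConnected ⟨x.1, hx⟩).joinedIn x.1 hx y.1 hy
  obtain ⟨p, hp⟩ := path_of_joined hA hj
  have h1 := hμ p (fun t => hAC (hp t))
  have h2 := hμ' p (fun t => hAC' (hp t))
  rw [h1] at h2
  have h3 : μ y = μ' y * (μ' x)⁻¹ * μ x := by
    rw [← h2, inv_mul_cancel_right]
  rw [h3]
  group

theorem ell_up (δ : ℝ) (z : ℂ) (t : ℝ) :
    ell δ (z + t * (⟨-δ, 1⟩ : ℂ)) = ell δ z ∧ (z + t * (⟨-δ, 1⟩ : ℂ)).im = z.im + t := by
  constructor
  · simp only [ell, Complex.add_re, Complex.add_im, Complex.mul_re, Complex.mul_im,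
      Complex.ofReal_re, Complex.ofReal_im]
    ring
  · simp only [Complex.add_im, Complex.mul_im, Complex.ofReal_re, Complex.ofReal_im]
    ring

theorem continuous_ell (δ : ℝ) : Continuous (ell δ) := by
  unfold ell
  fun_prop

/-- The complement of the closed downward rays. -/
private def C0 (S : Finset ℂ) (δ : ℝ) : Set ℂ := {z | ∀ s ∈ S, ell δ z = ell δ s → s.im < z.im}

private theorem C0_sc (S : Finset ℂ) (δ : ℝ) : SimplyConnectedSpace (C0 S δ) := by
  obtain ⟨T, hT⟩ : ∃ T : ℝ, ∀ s ∈ S, s.im < T := by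
    obtain ⟨T, hT⟩ := (S.image Complex.im).bddAbove
    refine ⟨T + 1, fun s hs => ?_⟩
    have := hT (Finset.mem_coe.2 (Finset.mem_image_of_mem _ hs))
    linarith
  let K : Set ℂ := {z | T ≤ z.im}
  have hK : Convex ℝ K := by
    intro x hx y hy a b ha hb hab
    change T ≤ (a • x + b • y).im
    have h1 : (a • x + b • y).im = a * x.im + b * y.im := by simp
    rw [h1]
    have hx' : T ≤ x.im := hx
    have hy' : T ≤ y.im := hy
    calc T = a * T + b * T := by rw [← add_mul, hab, one_mul]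
      _ ≤ _ := add_le_add (mul_le_mul_of_nonneg_left hx' ha) (mul_le_mul_of_nonneg_left hy' hb)
  have hKne : K.Nonempty := ⟨⟨0, T⟩, le_refl T⟩
  have hKc : ContractibleSpace K := hK.contractibleSpace hKne
  have hKC : ∀ z ∈ K, z ∈ C0 S δ := fun z hz s hs _ => lt_of_lt_of_le (hT s hs) hz
  let w : ℂ := ⟨-δ, 1⟩
  have hmove : ∀ (z : C0 S δ) (t : ℝ), 0 ≤ t → z.1 + t * w ∈ C0 S δ := by
    intro z t ht s hs hst
    rw [(ell_up δ z.1 t).1] at hst
    rw [(ell_up δ z.1 t).2]
    have := z.2 s hs hst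
    linarith
  let r : C(C0 S δ, K) := ⟨fun z => ⟨z.1 + ((max 0 (T - z.1.im) : ℝ) : ℂ) * w, by
      change T ≤ (z.1 + ((max 0 (T - z.1.im) : ℝ) : ℂ) * w).im
      rw [(ell_up δ z.1 _).2]
      have := le_max_right 0 (T - z.1.im)
      linarith⟩, by
    apply Continuous.subtype_mk
    fun_prop⟩
  let i : C(K, C0 S δ) := ⟨fun z => ⟨z.1, hKC z.1 z.2⟩, by
    apply Continuous.subtype_mk
    exact continuous_subtype_val⟩
  have h1 : (i.comp r).Homotopic (ContinuousMap.id (C0 S δ)) := by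
    refine ContinuousMap.Homotopic.symm ⟨⟨⟨fun q => ⟨q.2.1 +
      (((q.1 : ℝ) * max 0 (T - q.2.1.im) : ℝ) : ℂ) * w, ?_⟩, ?_⟩, ?_, ?_⟩⟩
    · exact hmove q.2 _ (mul_nonneg q.1.2.1 (le_max_left _ _))
    · apply Continuous.subtype_mk
      fun_prop
    · intro z
      apply Subtype.ext
      simp
    · intro z
      apply Subtype.ext
      simp [i, r]
  have h2 : (ContinuousMap.id K).Nullhomotopic := (contractible_iff_id_nullhomotopic K).1 hKc
  have h3 : (i.comp r).Nullhomotopic := by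
    have h4 := (h2.comp_right i).comp_left r
    simpa using h4
  have h5 : (ContinuousMap.id (C0 S δ)).Nullhomotopic := by
    obtain ⟨c, hc⟩ := h3
    exact ⟨c, h1.symm.trans hc⟩
  have : ContractibleSpace (C0 S δ) := (contractible_iff_id_nullhomotopic _).2 h5
  infer_instance

/-- a box in the coordinates `ell`, `im` -/
private def box (δ a b c : ℝ) : Set ℂ := {z | a < ell δ z ∧ ell δ z < b ∧ z.im < c}

private theorem convex_box (δ a b c : ℝ) : Convex ℝ (box δ a b c) := by
  have h1 : IsLinearMap ℝ (ell δ) := by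
    constructor
    · intro x y
      simp only [ell, Complex.add_re, Complex.add_im]
      ring
    · intro r x
      simp only [ell, Complex.smul_re, Complex.smul_im, smul_eq_mul]
      ring
  have h2 : IsLinearMap ℝ Complex.im := by
    constructor
    · intro x y
      simp
    · intro r x
      simp
  exact (convex_halfSpace_gt h1 a).inter ((convex_halfSpace_lt h1 b).inter
    (convex_halfSpace_lt h2 c))

private theorem box_nonempty (δ a b c : ℝ) (hab : a < b) : (box δ a b c).Nonempty := by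
  refine ⟨⟨(a + b) / 2 - δ * (c - 1), c - 1⟩, ?_, ?_, ?_⟩
  · simp only [ell]
    linarith
  · simp only [ell]
    linarith
  · change c - 1 < c
    linarith

/-- the twist of a functional by a potential -/
private def twist {X : Type} [TopologicalSpace X] (Φ : PF X H) (lam : X → H) : PF X H where
  val {x y} p := (lam y)⁻¹ * Φ.val p * lam x
  homot h := by rw [Φ.homot h]
  trans p q := by
    rw [Φ.trans]
    group

/-- Every functional is, up to potentials, a homomorphic image of `Ψ`. -/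
theorem compare {δ ε : ℝ} (h : Good S δ ε) (Ψ : PF (XS S) (FreeGroup ℂ))
    (hΨ : ∀ (j : Option ℂ) {x y : XS S} (p : Path x y),
      (∀ t, p t ∈ VV S δ ε j) → Ψ.val p = aa S δ j y * (aa S δ j x)⁻¹)
    (Φ : PF (XS S) H) :
    ∃ (F : FreeGroup ℂ →* H) (lam : XS S → H), ∀ {x y : XS S} (p : Path x y),
      F (Ψ.val p) = (lam y)⁻¹ * Φ.val p * lam x := by
  classical
  have hε := h.pos
  -- uniqueness of the strip
  have huniq : ∀ s ∈ S, ∀ t ∈ S, |ell δ t - ell δ s| < ε → t = s := by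
    intro s hs t ht hst
    by_contra hne
    have h1 := h.sep t ht s hs hne
    linarith
  have hC0 : ∀ z ∈ C0 S δ, z ∉ S := fun z hz hzS => lt_irrefl _ (hz z hzS rfl)
  let B : ℂ → Set ℂ := fun s => box δ (ell δ s - ε) (ell δ s + ε) s.im
  let L : ℂ → Set ℂ := fun s => box δ (ell δ s - ε) (ell δ s) s.im
  let R : ℂ → Set ℂ := fun s => box δ (ell δ s) (ell δ s + ε) s.im
  have hB : ∀ s ∈ S, ∀ z ∈ B s, z ∉ S := by
    intro s hs z hz hzS
    have h1 : z = s := huniq s hs z hzS (abs_lt.2 ⟨by linarith [hz.1], by linarith [hz.2.1]⟩)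
    have h2 := hz.2.2
    rw [h1] at h2
    exact lt_irrefl _ h2
  have hLB : ∀ s, L s ⊆ B s := fun s z hz => ⟨hz.1, by linarith [hz.2.1], hz.2.2⟩
  have hRB : ∀ s, R s ⊆ B s := fun s z hz => ⟨by linarith [hz.1], hz.2.1, hz.2.2⟩
  have hLC : ∀ s ∈ S, L s ⊆ C0 S δ := by
    intro s hs z hz t ht hzt
    have h1 : t = s := huniq s hs t ht (by
      rw [← hzt]
      exact abs_lt.2 ⟨by linarith [hz.1], by linarith [hz.2.1]⟩)
    have h2 := hz.2.1
    rw [hzt, h1] at h2
    exact absurd h2 (lt_irrefl _)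
  have hRC : ∀ s ∈ S, R s ⊆ C0 S δ := by
    intro s hs z hz t ht hzt
    have h1 : t = s := huniq s hs t ht (by
      rw [← hzt]
      exact abs_lt.2 ⟨by linarith [hz.1], by linarith [hz.2.1]⟩)
    have h2 := hz.1
    rw [hzt, h1] at h2
    exact absurd h2 (lt_irrefl _)
  -- potentials
  have hsc0 := C0_sc S δ
  obtain ⟨μ0, hμ0⟩ := potential Φ (C0 S δ) hC0
  have hpot : ∀ s : ℂ, ∃ μ : XS S → H, s ∈ S → ∀ {x y : XS S} (p : Path x y),
      (∀ t, (p t).1 ∈ B s) → Φ.val p = μ y * (μ x)⁻¹ := by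
    intro s
    by_cases hs : s ∈ S
    · have h1 : ContractibleSpace (B s) :=
        (convex_box _ _ _ _).contractibleSpace (box_nonempty _ _ _ _ (by linarith))
      obtain ⟨μ, hμ⟩ := potential Φ (B s) (hB s hs)
      exact ⟨μ, fun _ => hμ⟩
    · exact ⟨fun _ => 1, fun h => absurd h hs⟩
  choose μ hμ using hpot
  have hconst : ∀ s : ℂ, ∃ kL kR : H, s ∈ S → (∀ x : XS S, x.1 ∈ L s → (μ s x)⁻¹ * μ0 x = kL) ∧
      ∀ x : XS S, x.1 ∈ R s → (μ s x)⁻¹ * μ0 x = kR := by
    intro s
    by_cases hs : s ∈ S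
    · obtain ⟨l, hl⟩ : (L s).Nonempty := box_nonempty _ _ _ _ (by linarith)
      obtain ⟨r, hr⟩ : (R s).Nonempty := box_nonempty _ _ _ _ (by linarith)
      have hLS : ∀ z ∈ L s, z ∉ S := fun z hz => hB s hs z (hLB s hz)
      have hRS : ∀ z ∈ R s, z ∉ S := fun z hz => hB s hs z (hRB s hz)
      refine ⟨(μ s ⟨l, hLS l hl⟩)⁻¹ * μ0 ⟨l, hLS l hl⟩,
        (μ s ⟨r, hRS r hr⟩)⁻¹ * μ0 ⟨r, hRS r hr⟩, fun _ => ⟨?_, ?_⟩⟩
      · intro x hx
        exact overlap Φ (L s) hLS (convex_box _ _ _ _) (C0 S δ) (B s) (hLC s hs) (hLB s) μ0 (μ s)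
          hμ0 (hμ s hs) x ⟨l, hLS l hl⟩ hx hl
      · intro x hx
        exact overlap Φ (R s) hRS (convex_box _ _ _ _) (C0 S δ) (B s) (hRC s hs) (hRB s) μ0 (μ s)
          hμ0 (hμ s hs) x ⟨r, hRS r hr⟩ hx hr
    · exact ⟨1, 1, fun h => absurd h hs⟩
  choose kL kR hk using hconst
  -- the normalisation
  have hray : ∀ x : XS S, ∃ s : ℂ, x.1 ∉ C0 S δ → s ∈ S ∧ ell δ x.1 = ell δ s := by
    intro x
    by_cases hx : x.1 ∈ C0 S δ
    · exact ⟨0, fun h => absurd hx h⟩
    · have h1 : ∃ s ∈ S, ell δ x.1 = ell δ s ∧ ¬ s.im < x.1.im := by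
        by_contra hcon
        push Not at hcon
        exact hx hcon
      obtain ⟨s, hs, h2, -⟩ := h1
      exact ⟨s, fun _ => ⟨hs, h2⟩⟩
  choose sg hsg using hray
  let lam : XS S → H := fun x => if x.1 ∈ C0 S δ then μ0 x else μ (sg x) x * kL (sg x)
  have lam0 : ∀ x : XS S, x.1 ∈ C0 S δ → lam x = μ0 x := fun x hx => if_pos hx
  have lam1 : ∀ s ∈ S, ∀ x : XS S, x.1 ∈ B s → ell δ x.1 = ell δ s → lam x = μ s x * kL s := by
    intro s hs x hx hxs
    have h1 : x.1 ∉ C0 S δ := fun hc => absurd (hc s hs hxs) (not_lt.2 hx.2.2.le)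
    have h2 := hsg x h1
    have h3 : sg x = s := huniq s hs _ h2.1 (by
      rw [← h2.2, hxs, sub_self, abs_zero]
      exact hε)
    change (if x.1 ∈ C0 S δ then μ0 x else μ (sg x) x * kL (sg x)) = _
    rw [if_neg h1, h3]
  let F : FreeGroup ℂ →* H := FreeGroup.lift (fun s => (kR s)⁻¹ * kL s)
  have key : ∀ s ∈ S, ∀ x : XS S, x.1 ∈ B s →
      (lam x)⁻¹ * μ s x * kL s = F (aa S δ (some s) x) := by
    intro s hs x hx
    rcases lt_trichotomy (ell δ x.1) (ell δ s) with h1 | h1 | h1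
    · have hL : x.1 ∈ L s := ⟨hx.1, h1, hx.2.2⟩
      have h2 : aa S δ (some s) x = 1 := if_pos h1.le
      rw [h2, map_one, lam0 x (hLC s hs hL), ← (hk s hs).1 x hL]
      group
    · have h2 : aa S δ (some s) x = 1 := if_pos h1.le
      rw [h2, map_one, lam1 s hs x hx h1]
      group
    · have hR : x.1 ∈ R s := ⟨h1, hx.2.1, hx.2.2⟩
      have h2 : aa S δ (some s) x = FreeGroup.of s := if_neg (not_le.2 h1)
      have h3 : F (FreeGroup.of s) = (kR s)⁻¹ * kL s := FreeGroup.lift_apply_of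
      rw [h2, h3, lam0 x (hRC s hs hR), ← (hk s hs).2 x hR]
      group
  refine ⟨F, lam, ?_⟩
  intro x y p
  refine agree_cover (VV S δ ε) (isOpen_VV S δ ε) (cover_VV h) (Ψ.push F) (twist Φ lam) ?_ p
  intro j x y p hp
  change F (Ψ.val p) = (lam y)⁻¹ * Φ.val p * lam x
  rw [hΨ j p hp]
  cases j with
  | none =>
    have h1 : ∀ t, (p t).1 ∈ C0 S δ := hp
    have hx : x.1 ∈ C0 S δ := by
      have h2 := h1 0
      rwa [p.source] at h2
    have hy : y.1 ∈ C0 S δ := by
      have h2 := h1 1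
      rwa [p.target] at h2
    have h3 : ∀ z, aa S δ none z = 1 := fun z => rfl
    rw [h3, h3, lam0 x hx, lam0 y hy, hμ0 p h1]
    simp
  | some s =>
    have hs : s ∈ S := (hp 0).1
    have h1 : ∀ t, (p t).1 ∈ B s := by
      intro t
      have h2 := (hp t).2
      rw [abs_lt] at h2
      exact ⟨by linarith [h2.1.1], by linarith [h2.1.2], h2.2⟩
    have hx : x.1 ∈ B s := by
      have h2 := h1 0
      rwa [p.source] at h2
    have hy : y.1 ∈ B s := by
      have h2 := h1 1
      rwa [p.target] at h2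
    rw [map_mul, map_inv, ← key s hs x hx, ← key s hs y hy, hμ s hs p h1]
    group

end plane

/-- the final step of `free_embed` -/
theorem free_embed_of {S : Finset ℂ} {δ ε : ℝ} (h : Good S δ ε) :
    ∃ (Y : Type) (Ψ : PF {z : ℂ // z ∉ S} (FreeGroup Y)),
      ∀ (x : {z : ℂ // z ∉ S}) (p : Path x x), Ψ.val p = 1 → p.Homotopic (Path.refl x) := by
  obtain ⟨Ψ, hΨ⟩ := exists_psi h
  refine ⟨ℂ, Ψ, ?_⟩
  intro x p hp
  have hpc : PathConnectedSpace (XS S) := by
    have h1 : IsPathConnected ((S : Set ℂ)ᶜ) :=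
      S.countable_toSet.isPathConnected_compl_of_one_lt_rank (by
        rw [Complex.rank_real_complex]
        exact Nat.one_lt_ofNat)
    exact isPathConnected_iff_pathConnectedSpace.1 h1
  obtain ⟨Φ, hΦ⟩ := exists_univ x
  obtain ⟨F, lam, hF⟩ := compare h Ψ hΨ Φ
  have h1 := hF p
  rw [hp, map_one] at h1
  have h2 : Φ.val p = 1 := by
    have h3 : Φ.val p = lam x * ((lam x)⁻¹ * Φ.val p * lam x) * (lam x)⁻¹ := by group
    rw [h3, ← h1]
    group
  rw [hΦ p] at h2
  have h3 : Path.Homotopic.Quotient.mk p = Path.Homotopic.Quotient.mk (Path.refl x) :=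
    congrArg FundamentalGroup.toPath h2
  exact Path.Homotopic.Quotient.eq.1 h3

end H13F2
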