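import Pool.Agent.Lib.H13K.Defs2

/-!
# H13F2, FD: definitions (cover of the complement of a finite set)
-/

set_option autoImplicit false

open scoped unitInterval

namespace H13F2

open H13K

/-- The sheared real part. -/
def ell (δ : ℝ) (z : ℂ) : ℝ := z.re + δ * z.im

/-- The complement of a finite set. -/
abbrev XS (S : Finset ℂ) : Type := {z : ℂ // z ∉ S}

/-- `S` has different sheared real parts, `ε` is small. -/
structure Good (S : Finset ℂ) (δ ε : ℝ) : Prop where
  pos : 0 < ε
  sep : ∀ s ∈ S, ∀ t ∈ S, s ≠ t → 2 * ε ≤ |ell δ s - ell δ t|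

/-- The cover: `none` = the complement of the closed downward rays from the points of `S`,
`some s` = an open strip around the downward ray from `s`. -/
def VV (S : Finset ℂ) (δ ε : ℝ) : Option ℂ → Set (XS S)
  | none => {z | ∀ s ∈ S, ell δ z.1 = ell δ s → s.im < z.1.im}
  | some s => {z | s ∈ S ∧ |ell δ z.1 - ell δ s| < ε ∧ z.1.im < s.im}

open Classical in
/-- The potentials: `1` to the left of the ray and on the ray, the generator to the right. -/
noncomputable def aa (S : Finset ℂ) (δ : ℝ) : Option ℂ → XS S → FreeGroup ℂ
  | none => fun _ => 1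
  | some s => fun z => if ell δ z.1 ≤ ell δ s then 1 else FreeGroup.of s

end H13F2
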